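import Pool.Agent.helper56.NZ.Spec

/-!
# Project nz: module NEU: a neutral passage gives a neutral return of `0`
-/

set_option autoImplicit false

open Complex Metric Set Filter Topology MeasureTheory
open Pool.Agent.helper98.ILF Pool.Agent.helper16.Multibrot
open HY (UD T S hd UN RM VV SG Orb fz)

noncomputable section

namespace NZ

/-- the derivative at `0` of an `n`-th root. -/
lemma NEU_root (n : ℕ) (hn : 2 ≤ n) (c : ℂ) (ψ Φ : ℂ → ℂ) (hψ : DifferentiableAt ℂ ψ 0) (hψ0 : ψ 0 = 0)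
    (hΦ : DifferentiableAt ℂ Φ 0) (hΦ0 : Φ 0 = c) (hrel : ∀ x ∈ UD, ψ x ^ n + c = Φ (x ^ n)) :
    deriv ψ 0 ^ n = deriv Φ 0 := by
  have hn0 : n ≠ 0 := by omega
  have h1 : Tendsto (fun x : ℂ => (x⁻¹ * ψ x) ^ n) (𝓝[≠] 0) (𝓝 (deriv ψ 0 ^ n)) := by
    have h := hψ.hasDerivAt.tendsto_slope_zero
    refine (h.congr' ?_).pow n
    filter_upwards with x
    simp [hψ0]
  have hpow : Tendsto (fun x : ℂ => x ^ n) (𝓝[≠] 0) (𝓝[≠] 0) := by
    refine tendsto_nhdsWithin_iff.2 ⟨?_, ?_⟩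
    · have : Tendsto (fun x : ℂ => x ^ n) (𝓝 0) (𝓝 (0 ^ n)) := (continuous_pow n).tendsto 0
      rw [zero_pow hn0] at this
      exact this.mono_left nhdsWithin_le_nhds
    · filter_upwards [self_mem_nhdsWithin] with x hx
      exact pow_ne_zero n hx
  have h2 : Tendsto (fun x : ℂ => (x ^ n)⁻¹ * (Φ (x ^ n) - c)) (𝓝[≠] 0) (𝓝 (deriv Φ 0)) := by
    have h := hΦ.hasDerivAt.tendsto_slope_zero
    refine (h.comp hpow).congr' ?_
    filter_upwards with x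
    simp [hΦ0]
  refine tendsto_nhds_unique h1 (h2.congr' ?_)
  have hball : UD ∈ 𝓝[≠] (0 : ℂ) := mem_nhdsWithin_of_mem_nhds (ball_mem_nhds 0 one_pos)
  filter_upwards [hball, self_mem_nhdsWithin] with x hx hx0
  rw [← hrel x hx, mul_pow, inv_pow]
  ring

theorem NEU (hCFR : CFR_stmt) (hMOB : HY.MOB_stmt) (hVKB : HY.VKB_stmt) (hKO0 : V3.KO0_stmt)
    (hKO1 : V3.KO1_stmt) (hKO3 : V3.KO3_stmt) : NEU_stmt := by
  intro n hn δ τ t hδ hτ hτ1 ht ht1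
  obtain ⟨κ, hκ0, hκ1, hCFR⟩ := hCFR n hn
  obtain ⟨K, hK1, hKO1⟩ := hKO1
  have hK0 : 0 < K := by linarith
  set q : ℝ := (1 - τ ^ 2) * (1 - t) ^ 2 with hq
  have hτ2 : 0 < 1 - τ ^ 2 := by nlinarith
  have hq0 : 0 < q := by
    have : 0 < (1 - t) ^ 2 := by nlinarith
    positivity
  have hq1 : q < 1 := by
    have h1 : (1 - t) ^ 2 < 1 := by nlinarith
    have h2 : 1 - τ ^ 2 < 1 := by nlinarith
    nlinarith
  set η : ℝ := q / 2 with hη
  have hη0 : 0 < η := by positivity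
  have hη1 : η < 1 := by rw [hη]; linarith
  obtain ⟨C, hC1, hKO3⟩ := hKO3 η hη0 hη1
  have hm0 : 0 < min 1 (δ / K) := lt_min one_pos (by positivity)
  refine ⟨min 1 (δ / K) * κ, C, by positivity, by linarith, ?_⟩
  intro c hc k φ ψ b hSG y j hyj hNeu
  obtain ⟨hc2, h0f, hcf, hcpt, hff, hopen, hV4, hVsub, hVeq, hfV, hVf, hcl⟩ := hVKB n c hn hc
  obtain ⟨s, H, F, hH, hF, hH0, hHd, hrel⟩ := hNeu
  refine ⟨s + 1, by omega, ?_⟩
  have h0UD : (0 : ℂ) ∈ UD := mem_ball_self one_pos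
  have hUDo : IsOpen UD := isOpen_ball
  have hφ := hSG.rm
  have hψ := hSG.rmu
  have hb := hSG.hb
  have hψ' : RM (VV n c (k + 1)) 0 ψ := by rw [hVeq k]; exact hψ
  have hR := hCFR c hc k φ ψ hφ hψ'
  set R : ℝ := ‖deriv φ 0‖ with hRdef
  have hR0 : 0 < R := norm_pos_iff.2 (hKO0 φ UD hUDo hφ.dif hφ.inj 0 h0UD)
  obtain ⟨hTS, hTa, hSa, hTd, hSd, hTi, hSi, hTn, hTsymm, hTder, hSder, hT3⟩ := hMOB b hb
  -- derivatives
  have hφb : DifferentiableAt ℂ φ b := hφ.dif.differentiableAt (hUDo.mem_nhds hb)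
  have hH0d : DifferentiableAt ℂ H 0 := hH.dif.differentiableAt (hUDo.mem_nhds h0UD)
  have hS0d : DifferentiableAt ℂ (S b) 0 := hSd.differentiableAt (hUDo.mem_nhds h0UD)
  have hnb : ‖b‖ < 1 := by simpa [UD] using hb
  have hnb2 : 0 < 1 - ‖b‖ ^ 2 := by nlinarith [norm_nonneg b]
  have hXd : deriv (fun x => φ (H x)) 0 = deriv φ b * deriv H 0 := by
    have h := deriv_comp (h₂ := φ) (h := H) (0 : ℂ) (by rw [hH0]; exact hφb) hH0d
    rw [hH0] at h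
    exact h
  have hΦd : deriv (fun x => φ (S b x)) 0 = deriv φ b * (1 - (‖b‖ : ℂ) ^ 2) := by
    have h := deriv_comp (h₂ := φ) (h := S b) (0 : ℂ) (by rw [hSa]; exact hφb) hS0d
    rw [hSa, hSder] at h
    exact h
  have hcast : ‖(1 - (‖b‖ : ℂ) ^ 2)‖ = 1 - ‖b‖ ^ 2 := by
    have : (1 - (‖b‖ : ℂ) ^ 2) = ((1 - ‖b‖ ^ 2 : ℝ) : ℂ) := by push_cast; ring
    rw [this, Complex.norm_real, Real.norm_of_nonneg hnb2.le]
  have hΦdiff : DifferentiableAt ℂ (fun x => φ (S b x)) 0 := by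
    refine DifferentiableAt.comp (g := φ) (f := S b) (0 : ℂ) (by rw [hSa]; exact hφb) hS0d
  have hψ0d : DifferentiableAt ℂ ψ 0 := hψ.dif.differentiableAt (hUDo.mem_nhds h0UD)
  have hroot := NEU_root n hn c ψ (fun x => φ (S b x)) hψ0d hψ.val hΦdiff (by simp only [hSa, hSG.hbc])
    (fun x hx => by
      have := hSG.rel x hx
      simpa [fz] using this)
  have hrootn : ‖deriv ψ 0‖ ^ n = ‖deriv φ b‖ * (1 - ‖b‖ ^ 2) := by
    rw [← norm_pow, hroot, hΦd, norm_mul, hcast]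
  have hXnorm : δ * (κ * R) ^ n ≤ ‖deriv (fun x => φ (H x)) 0‖ := by
    have h1 : (κ * R) ^ n ≤ ‖deriv ψ 0‖ ^ n := pow_le_pow_left₀ (by positivity) hR n
    have h2 : δ * (1 - ‖b‖ ^ 2) ≤ ‖deriv H 0‖ := by
      have h3 : δ ≤ ‖deriv H 0‖ / (1 - ‖b‖ ^ 2) := by
        have := hHd
        unfold HY.hd at this
        rw [hH0] at this
        exact this
      rwa [le_div_iff₀ hnb2] at h3
    calc δ * (κ * R) ^ n ≤ δ * (‖deriv φ b‖ * (1 - ‖b‖ ^ 2)) := by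
          rw [← hrootn]
          exact mul_le_mul_of_nonneg_left h1 hδ.le
      _ = ‖deriv φ b‖ * (δ * (1 - ‖b‖ ^ 2)) := by ring
      _ ≤ ‖deriv φ b‖ * ‖deriv H 0‖ := mul_le_mul_of_nonneg_left h2 (norm_nonneg _)
      _ = ‖deriv (fun x => φ (H x)) 0‖ := by rw [hXd, norm_mul]
  -- quarter theorem
  have hXdif : DifferentiableOn ℂ (fun x => φ (H x)) (ball 0 1) := hφ.dif.comp hH.dif hH.map
  have hXinj : InjOn (fun x => φ (H x)) (ball 0 1) := hφ.inj.comp hH.inj hH.map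
  have hcov := hKO1 (fun x => φ (H x)) 0 1 one_pos hXdif hXinj
  simp only [hH0, hSG.hbc, one_mul] at hcov
  intro z hz
  have hzn : ‖z ^ n‖ < δ * (κ * R) ^ n / K := by
    rw [norm_pow]
    have hn0 : n ≠ 0 := by omega
    have h1 : ‖z‖ ^ n < (min 1 (δ / K) * κ * R) ^ n := pow_lt_pow_left₀ hz (norm_nonneg _) hn0
    have h2 : (min 1 (δ / K) * κ * R) ^ n ≤ (δ / K) * (κ * R) ^ n := by
      rw [mul_assoc, mul_pow]
      refine mul_le_mul_of_nonneg_right ?_ (by positivity)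
      calc (min 1 (δ / K)) ^ n ≤ (min 1 (δ / K)) ^ 1 :=
            pow_le_pow_of_le_one hm0.le (min_le_left _ _) (by omega)
        _ = min 1 (δ / K) := pow_one _
        _ ≤ δ / K := min_le_right _ _
    calc ‖z‖ ^ n < (min 1 (δ / K) * κ * R) ^ n := h1
      _ ≤ (δ / K) * (κ * R) ^ n := h2
      _ = δ * (κ * R) ^ n / K := by ring
  have hzmem : fz n c z ∈ ball c (‖deriv (fun x => φ (H x)) 0‖ / K) := by
    rw [mem_ball, dist_eq_norm]
    have : fz n c z - c = z ^ n := by simp [fz]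
    rw [this]
    refine hzn.trans_le ?_
    exact div_le_div_of_nonneg_right hXnorm hK0.le
  obtain ⟨x, hx, hxz⟩ := hcov hzmem
  simp only at hxz
  have hxUD : x ∈ UD := hx
  have hit : (fz n c)^[s + 1] z = φ (S (y j) (τ * F x)) := by
    rw [Function.iterate_succ_apply, ← hxz]
    exact hrel x hxUD
  rw [hit]
  -- the point w
  have hyUD : y j ∈ UD := by
    rw [UD, mem_ball_zero_iff]; linarith
  obtain ⟨gTS, gTa, gSa, gTd, gSd, gTi, gSi, gTn, gTsymm, gTder, gSder, gT3⟩ := hMOB (y j) hyUD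
  have hFx : ‖F x‖ < 1 := by
    have := hF hxUD
    rwa [UD, mem_ball_zero_iff] at this
  have hτF : ‖(τ : ℂ) * F x‖ ≤ τ := by
    rw [norm_mul, Complex.norm_real, Real.norm_of_nonneg hτ.le]
    nlinarith [norm_nonneg (F x)]
  have hτFUD : (τ : ℂ) * F x ∈ UD := by
    rw [UD, mem_ball_zero_iff]; linarith
  set w : ℂ := S (y j) (τ * F x) with hw
  have hwUD : w ∈ UD := (gTS _ hτFUD).2.1
  have hTw : T (y j) w = τ * F x := (gTS _ hτFUD).2.2.2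
  have hwn := gTn w hwUD
  rw [hTw] at hwn
  have hw1 : ‖w‖ < 1 := by
    have := hwUD
    rwa [UD, mem_ball_zero_iff] at this
  have hden : 1 - t ≤ ‖1 - (starRingEnd ℂ) (y j) * w‖ := by
    have h1 : ‖(starRingEnd ℂ) (y j) * w‖ ≤ t := by
      rw [norm_mul, RCLike.norm_conj]
      calc ‖y j‖ * ‖w‖ ≤ t * 1 := mul_le_mul hyj hw1.le (norm_nonneg _) ht.le
        _ = t := mul_one t
    have h2 := norm_sub_norm_le (1 : ℂ) ((starRingEnd ℂ) (y j) * w)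
    rw [norm_one] at h2
    linarith
  have hy2 : 0 < 1 - ‖y j‖ ^ 2 := by nlinarith [norm_nonneg (y j)]
  have hy3 : 1 - ‖y j‖ ^ 2 ≤ 1 := by nlinarith [norm_nonneg (y j)]
  have hw2 : q ≤ 1 - ‖w‖ ^ 2 := by
    have hD0 : 0 < ‖1 - (starRingEnd ℂ) (y j) * w‖ ^ 2 := by
      have h0 : 0 < ‖1 - (starRingEnd ℂ) (y j) * w‖ := by linarith
      positivity
    have h1 : 1 - τ ^ 2 ≤ 1 - ‖(τ : ℂ) * F x‖ ^ 2 := by
      nlinarith [norm_nonneg ((τ : ℂ) * F x)]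
    rw [hwn, le_div_iff₀ hD0] at h1
    have h2 : (1 - t) ^ 2 ≤ ‖1 - (starRingEnd ℂ) (y j) * w‖ ^ 2 :=
      pow_le_pow_left₀ (by linarith) hden 2
    have h3 : 0 ≤ 1 - ‖w‖ ^ 2 := by nlinarith [norm_nonneg w]
    calc q = (1 - τ ^ 2) * (1 - t) ^ 2 := hq
      _ ≤ (1 - τ ^ 2) * ‖1 - (starRingEnd ℂ) (y j) * w‖ ^ 2 := mul_le_mul_of_nonneg_left h2 hτ2.le
      _ ≤ (1 - ‖y j‖ ^ 2) * (1 - ‖w‖ ^ 2) := h1
      _ ≤ 1 * (1 - ‖w‖ ^ 2) := mul_le_mul_of_nonneg_right hy3 h3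
      _ = 1 - ‖w‖ ^ 2 := one_mul _
  have hwη : ‖w‖ < 1 - η := by
    have h1 : ‖w‖ ^ 2 < (1 - η) ^ 2 := by
      have : (1 - η) ^ 2 = 1 - q + η ^ 2 := by rw [hη]; ring
      rw [this]
      have : 0 < η ^ 2 := by positivity
      linarith
    exact lt_of_pow_lt_pow_left₀ 2 (by linarith) h1
  have hgrow := ((hKO3 φ 0 1 one_pos hφ.dif hφ.inj).2 w (by
    rw [mem_ball_zero_iff, mul_one]; exact hwη)).2.2.1
  rw [hφ.val, sub_zero, sub_zero] at hgrow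
  calc ‖φ w‖ ≤ C * ‖w‖ * ‖deriv φ 0‖ := hgrow
    _ ≤ C * 1 * ‖deriv φ 0‖ := by
        refine mul_le_mul_of_nonneg_right ?_ (norm_nonneg _)
        exact mul_le_mul_of_nonneg_left hw1.le (by linarith)
    _ = C * R := by rw [mul_one]

end NZ
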